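import Pool.Agent.Helper73.EK.DefsE2
import Pool.Agent.Helper73.EK.Pois
import Pool.Agent.Helper73.EK.E2d
set_option autoImplicit false
open Complex MeasureTheory Metric Set
open scoped Real ComplexConjugate

/-! Project EK, E2a: the derivatives of the entropy `AA ρ`.

`uu ρ t θ = Re FF ρ (t + iθ)`, `FF ρ` analytic and `2πi`-periodic on the left half plane. -/

namespace Pool.Agent.Helper48.EK

open Pool.Agent.Helper52.EK

/-! ### parametric integrals -/

/-- derivative under the integral, continuous case -/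
theorem hasDerivAt_param {𝕜 E : Type*} [RCLike 𝕜] [NormedAddCommGroup E] [NormedSpace ℝ E]
    [NormedSpace 𝕜 E] {F F' : 𝕜 → ℝ → E} {U : Set 𝕜} (hU : IsOpen U) {x₀ : 𝕜} (hx : x₀ ∈ U)
    {a b : ℝ} (hF : ContinuousOn (fun p : 𝕜 × ℝ => F p.1 p.2) (U ×ˢ univ))
    (hF' : ContinuousOn (fun p : 𝕜 × ℝ => F' p.1 p.2) (U ×ˢ univ))
    (hd : ∀ x ∈ U, ∀ t, HasDerivAt (fun x => F x t) (F' x t) x) :
    HasDerivAt (fun x => ∫ t in a..b, F x t) (∫ t in a..b, F' x₀ t) x₀ := by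
  obtain ⟨ε, hε, hεU⟩ := Metric.nhds_basis_closedBall.mem_iff.1 (hU.mem_nhds hx)
  have hs : ∀ x ∈ U, Continuous fun t => F x t := fun x hxU =>
    hF.comp_continuous (by fun_prop : Continuous fun t : ℝ => (x, t)) fun t => ⟨hxU, trivial⟩
  have hs' : ∀ x ∈ U, Continuous fun t => F' x t := fun x hxU =>
    hF'.comp_continuous (by fun_prop : Continuous fun t : ℝ => (x, t)) fun t => ⟨hxU, trivial⟩
  have hK : IsCompact (Metric.closedBall x₀ ε ×ˢ Set.uIcc a b) :=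
    (isCompact_closedBall x₀ ε).prod isCompact_uIcc
  obtain ⟨C, hC⟩ := hK.exists_bound_of_continuousOn
    (hF'.mono (Set.prod_mono hεU (Set.subset_univ _)))
  refine (intervalIntegral.hasDerivAt_integral_of_dominated_loc_of_deriv_le
    (F := F) (F' := F') (bound := fun _ => C) (Metric.ball_mem_nhds x₀ hε) ?_ ?_ ?_ ?_ ?_ ?_).2
  · filter_upwards [hU.mem_nhds hx] with x hxU
    exact (hs x hxU).aestronglyMeasurable
  · exact (hs x₀ hx).intervalIntegrable _ _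
  · exact (hs' x₀ hx).aestronglyMeasurable
  · refine Filter.Eventually.of_forall fun t ht x hxb => ?_
    exact hC (x, t) ⟨Metric.ball_subset_closedBall hxb, Set.uIoc_subset_uIcc ht⟩
  · exact intervalIntegrable_const
  · refine Filter.Eventually.of_forall fun t _ x hxb => ?_
    exact hd x (hεU (Metric.ball_subset_closedBall hxb)) t

/-- continuity of a parametric integral, continuous case -/
theorem continuousAt_param {X E : Type*} [TopologicalSpace X] [FirstCountableTopology X]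
    [LocallyCompactSpace X] [NormedAddCommGroup E] [NormedSpace ℝ E]
    {F : X → ℝ → E} {U : Set X} (hU : IsOpen U) {x₀ : X} (hx : x₀ ∈ U)
    {a b : ℝ} (hF : ContinuousOn (fun p : X × ℝ => F p.1 p.2) (U ×ˢ univ)) :
    ContinuousAt (fun x => ∫ t in a..b, F x t) x₀ := by
  obtain ⟨K, hK1, hKU, hK⟩ := LocallyCompactSpace.local_compact_nhds x₀ U (hU.mem_nhds hx)
  have hs : ∀ x ∈ U, Continuous fun t => F x t := fun x hxU =>
    hF.comp_continuous (by fun_prop : Continuous fun t : ℝ => (x, t)) fun t => ⟨hxU, trivial⟩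
  obtain ⟨C, hC⟩ := (hK.prod (isCompact_uIcc (a := a) (b := b))).exists_bound_of_continuousOn
    (hF.mono (Set.prod_mono hKU (Set.subset_univ _)))
  refine intervalIntegral.continuousAt_of_dominated_interval (bound := fun _ => C) ?_ ?_ ?_ ?_
  · filter_upwards [hU.mem_nhds hx] with x hxU
    exact (hs x hxU).aestronglyMeasurable
  · filter_upwards [hK1] with x hxK
    refine Filter.Eventually.of_forall fun t ht => ?_
    exact hC (x, t) ⟨hxK, Set.uIoc_subset_uIcc ht⟩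
  · exact intervalIntegrable_const
  · refine Filter.Eventually.of_forall fun t _ => ?_
    have h1 : ContinuousAt (fun p : X × ℝ => F p.1 p.2) (x₀, t) :=
      hF.continuousAt ((hU.prod isOpen_univ).mem_nhds ⟨hx, trivial⟩)
    exact ContinuousAt.comp (f := fun x : X => (x, t)) h1 (by fun_prop)

/-! ### the analytic function -/

/-- the left half plane -/
def HP : Set ℂ := {w : ℂ | w.re < 0}

theorem isOpen_HP : IsOpen HP := isOpen_lt Complex.continuous_re continuous_const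

noncomputable def KK (w : ℂ) (α : ℝ) : ℂ :=
  (Complex.exp (α * I) + Complex.exp w) / (Complex.exp (α * I) - Complex.exp w)

noncomputable def KK' (w : ℂ) (α : ℝ) : ℂ :=
  2 * Complex.exp (α * I) * Complex.exp w / (Complex.exp (α * I) - Complex.exp w) ^ 2

noncomputable def FF (ρ : ℝ → ℝ) (w : ℂ) : ℂ :=
  ((2 * π)⁻¹ : ℝ) • ∫ α in (0:ℝ)..(2 * π), (ρ α : ℂ) * KK w α

theorem den_ne {w : ℂ} (hw : w ∈ HP) (α : ℝ) :
    Complex.exp (α * I) - Complex.exp w ≠ 0 := by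
  intro h
  rw [sub_eq_zero] at h
  have h1 := congrArg norm h
  rw [Complex.norm_exp_ofReal_mul_I, Complex.norm_exp] at h1
  have h2 : Real.exp w.re < 1 := by
    rw [← Real.exp_zero]
    exact Real.exp_lt_exp.2 hw
  linarith

theorem re_div (ζ z : ℂ) : ((ζ + z) / (ζ - z)).re = (‖ζ‖ ^ 2 - ‖z‖ ^ 2) / ‖ζ - z‖ ^ 2 := by
  rw [Complex.div_re, ← Complex.normSq_eq_norm_sq, ← Complex.normSq_eq_norm_sq,
    ← Complex.normSq_eq_norm_sq, ← add_div]
  congr 1
  simp only [Complex.normSq_apply, Complex.add_re, Complex.add_im, Complex.sub_re, Complex.sub_im]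
  ring

theorem KK_re (w : ℂ) (α : ℝ) :
    (KK w α).re = Pk (Complex.exp (α * I)) (Complex.exp w) := by
  unfold KK Pk
  rw [re_div, Complex.norm_exp_ofReal_mul_I, one_pow]

theorem hasDerivAt_KK {w : ℂ} (hw : w ∈ HP) (α : ℝ) :
    HasDerivAt (fun w => KK w α) (KK' w α) w := by
  unfold KK KK'
  have h1 : HasDerivAt (fun w : ℂ => Complex.exp (α * I) + Complex.exp w) (Complex.exp w) w :=
    (Complex.hasDerivAt_exp w).const_add _
  have h2 : HasDerivAt (fun w : ℂ => Complex.exp (α * I) - Complex.exp w) (-Complex.exp w) w :=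
    (Complex.hasDerivAt_exp w).const_sub _
  refine (h1.fun_div h2 (den_ne hw α)).congr_deriv ?_
  congr 1
  ring

theorem continuousOn_KK : ContinuousOn (fun p : ℂ × ℝ => KK p.1 p.2) (HP ×ˢ univ) := by
  unfold KK
  refine ContinuousOn.div (by fun_prop) (by fun_prop) fun p hp => den_ne hp.1 p.2

theorem continuousOn_KK' : ContinuousOn (fun p : ℂ × ℝ => KK' p.1 p.2) (HP ×ˢ univ) := by
  unfold KK'
  refine ContinuousOn.div (by fun_prop) (by fun_prop) fun p hp => ?_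
  exact pow_ne_zero 2 (den_ne hp.1 p.2)

theorem hasDerivAt_FF {ρ : ℝ → ℝ} (hρ : Continuous ρ) {w : ℂ} (hw : w ∈ HP) :
    HasDerivAt (FF ρ) (((2 * π)⁻¹ : ℝ) • ∫ α in (0:ℝ)..(2 * π), (ρ α : ℂ) * KK' w α) w := by
  have h := hasDerivAt_param (𝕜 := ℂ) (E := ℂ) (F := fun w α => (ρ α : ℂ) * KK w α)
    (F' := fun w α => (ρ α : ℂ) * KK' w α) (a := 0) (b := 2 * π) isOpen_HP hw
    (by
      have h1 : Continuous fun p : ℂ × ℝ => (ρ p.2 : ℂ) := by fun_prop
      exact h1.continuousOn.mul continuousOn_KK)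
    (by
      have h1 : Continuous fun p : ℂ × ℝ => (ρ p.2 : ℂ) := by fun_prop
      exact h1.continuousOn.mul continuousOn_KK')
    (fun x hx t => (hasDerivAt_KK hx t).const_mul _)
  exact h.const_smul ((2 * π)⁻¹ : ℝ)

theorem differentiableOn_FF {ρ : ℝ → ℝ} (hρ : Continuous ρ) : DifferentiableOn ℂ (FF ρ) HP :=
  fun _ hw => (hasDerivAt_FF hρ hw).differentiableAt.differentiableWithinAt

theorem FF_per (ρ : ℝ → ℝ) (w : ℂ) : FF ρ (w + 2 * π * I) = FF ρ w := by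
  unfold FF KK
  simp only [Complex.exp_periodic w]

theorem dFF_per (ρ : ℝ → ℝ) (w : ℂ) : deriv (FF ρ) (w + 2 * π * I) = deriv (FF ρ) w := by
  rw [← deriv_comp_add_const]
  congr 1
  funext z
  exact FF_per ρ z

/-- `t + iθ` -/
theorem pt_mem {t : ℝ} (ht : t < 0) (θ : ℝ) : (t : ℂ) + (θ : ℂ) * I ∈ HP := by
  simpa [HP] using ht

theorem uu_eq {ρ : ℝ → ℝ} (hρ : Continuous ρ) {t : ℝ} (ht : t < 0) (θ : ℝ) :
    uu ρ t θ = (FF ρ ((t : ℂ) + (θ : ℂ) * I)).re := by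
  have hc : Continuous fun α : ℝ => (ρ α : ℂ) * KK ((t : ℂ) + (θ : ℂ) * I) α := by
    refine Continuous.mul (by fun_prop) ?_
    exact continuousOn_KK.comp_continuous
      (by fun_prop : Continuous fun α : ℝ => (((t : ℂ) + (θ : ℂ) * I), α))
      fun α => ⟨pt_mem ht θ, trivial⟩
  have h1 := Complex.reCLM.intervalIntegral_comp_comm (μ := volume)
    (hc.intervalIntegrable 0 (2 * π))
  unfold uu FF
  rw [Complex.smul_re, smul_eq_mul]
  congr 1
  rw [show (∫ α in (0:ℝ)..(2 * π), (ρ α : ℂ) * KK ((t : ℂ) + (θ : ℂ) * I) α).re =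
    Complex.reCLM (∫ α in (0:ℝ)..(2 * π), (ρ α : ℂ) * KK ((t : ℂ) + (θ : ℂ) * I) α) from rfl,
    ← h1]
  refine intervalIntegral.integral_congr fun α _ => ?_
  simp only [Complex.reCLM_apply, Complex.re_ofReal_mul, KK_re]
  unfold ep
  ring

theorem uu_per (ρ : ℝ → ℝ) (t θ : ℝ) : uu ρ t (θ + 2 * π) = uu ρ t θ := by
  have h1 : ep t (θ + 2 * π) = ep t θ := by
    unfold ep
    push_cast
    rw [add_mul, ← add_assoc]
    exact Complex.exp_periodic _
  unfold uu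
  rw [h1]

theorem uu_pos {ρ : ℝ → ℝ} (h : Dens ρ) {t : ℝ} (ht : t < 0) (θ : ℝ) : 0 < uu ρ t θ :=
  Helper73.EK.uu_pos h ht θ

/-! ### the two real derivatives -/

theorem hasDerivAt_re_t {G : ℂ → ℂ} {G' : ℂ} {t θ : ℝ}
    (h : HasDerivAt G G' ((t : ℂ) + (θ : ℂ) * I)) :
    HasDerivAt (fun t' : ℝ => (G ((t' : ℂ) + (θ : ℂ) * I)).re) G'.re t := by
  have h1 : HasDerivAt (fun t' : ℝ => (t' : ℂ) + (θ : ℂ) * I) 1 t :=
    (Complex.ofRealCLM.hasDerivAt.add_const _)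
  have h2 : HasDerivAt (fun t' : ℝ => G ((t' : ℂ) + (θ : ℂ) * I)) (G' * 1) t :=
    HasDerivAt.comp t h h1
  have h3 : HasDerivAt (fun t' : ℝ => (G ((t' : ℂ) + (θ : ℂ) * I)).re) (G' * 1).re t :=
    Complex.reCLM.hasFDerivAt.comp_hasDerivAt t h2
  rwa [mul_one] at h3

theorem hasDerivAt_re_th {G : ℂ → ℂ} {G' : ℂ} {t θ : ℝ}
    (h : HasDerivAt G G' ((t : ℂ) + (θ : ℂ) * I)) :
    HasDerivAt (fun θ' : ℝ => (G ((t : ℂ) + (θ' : ℂ) * I)).re) (-G'.im) θ := by
  have h1 : HasDerivAt (fun θ' : ℝ => (t : ℂ) + (θ' : ℂ) * I) I θ := by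
    have := (Complex.ofRealCLM.hasDerivAt (x := θ)).mul_const I
    simpa using this.const_add (t : ℂ)
  have h2 : HasDerivAt (fun θ' : ℝ => G ((t : ℂ) + (θ' : ℂ) * I)) (G' * I) θ :=
    HasDerivAt.comp θ h h1
  have h3 : HasDerivAt (fun θ' : ℝ => (G ((t : ℂ) + (θ' : ℂ) * I)).re) (G' * I).re θ :=
    Complex.reCLM.hasFDerivAt.comp_hasDerivAt θ h2
  rwa [Complex.mul_I_re] at h3

theorem hasDerivAt_im_th {G : ℂ → ℂ} {G' : ℂ} {t θ : ℝ}
    (h : HasDerivAt G G' ((t : ℂ) + (θ : ℂ) * I)) :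
    HasDerivAt (fun θ' : ℝ => (G ((t : ℂ) + (θ' : ℂ) * I)).im) G'.re θ := by
  have h1 : HasDerivAt (fun θ' : ℝ => (t : ℂ) + (θ' : ℂ) * I) I θ := by
    have := (Complex.ofRealCLM.hasDerivAt (x := θ)).mul_const I
    simpa using this.const_add (t : ℂ)
  have h2 : HasDerivAt (fun θ' : ℝ => G ((t : ℂ) + (θ' : ℂ) * I)) (G' * I) θ :=
    HasDerivAt.comp θ h h1
  have h3 : HasDerivAt (fun θ' : ℝ => (G ((t : ℂ) + (θ' : ℂ) * I)).im) (G' * I).im θ :=
    Complex.imCLM.hasFDerivAt.comp_hasDerivAt θ h2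
  rwa [Complex.mul_I_im] at h3

variable {ρ : ℝ → ℝ}

theorem FF_hasDerivAt (hρ : Continuous ρ) {w : ℂ} (hw : w ∈ HP) :
    HasDerivAt (FF ρ) (deriv (FF ρ) w) w := (hasDerivAt_FF hρ hw).differentiableAt.hasDerivAt

theorem dFF_hasDerivAt (hρ : Continuous ρ) {w : ℂ} (hw : w ∈ HP) :
    HasDerivAt (deriv (FF ρ)) (deriv (deriv (FF ρ)) w) w :=
  (((differentiableOn_FF hρ).deriv isOpen_HP).differentiableAt (isOpen_HP.mem_nhds hw)).hasDerivAt

theorem cont_FF (hρ : Continuous ρ) : ContinuousOn (FF ρ) HP :=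
  (differentiableOn_FF hρ).continuousOn

theorem cont_dFF (hρ : Continuous ρ) : ContinuousOn (deriv (FF ρ)) HP :=
  ((differentiableOn_FF hρ).deriv isOpen_HP).continuousOn

theorem cont_ddFF (hρ : Continuous ρ) : ContinuousOn (deriv (deriv (FF ρ))) HP :=
  (((differentiableOn_FF hρ).deriv isOpen_HP).deriv isOpen_HP).continuousOn

theorem eventually_neg {t : ℝ} (ht : t < 0) : ∀ᶠ t' in nhds t, t' < 0 := eventually_lt_nhds ht

theorem hasDerivAt_uu_t (hρ : Continuous ρ) {t : ℝ} (ht : t < 0) (θ : ℝ) :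
    HasDerivAt (fun t' => uu ρ t' θ) (deriv (FF ρ) ((t : ℂ) + (θ : ℂ) * I)).re t := by
  have h := hasDerivAt_re_t (FF_hasDerivAt hρ (pt_mem ht θ))
  refine h.congr_of_eventuallyEq ?_
  filter_upwards [eventually_neg ht] with t' ht'
  exact uu_eq hρ ht' θ

theorem hasDerivAt_uu_th (hρ : Continuous ρ) {t : ℝ} (ht : t < 0) (θ : ℝ) :
    HasDerivAt (fun θ' => uu ρ t θ') (-(deriv (FF ρ) ((t : ℂ) + (θ : ℂ) * I)).im) θ := by
  have h := hasDerivAt_re_th (FF_hasDerivAt hρ (pt_mem ht θ))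
  refine h.congr_of_eventuallyEq ?_
  filter_upwards with θ'
  exact uu_eq hρ ht θ'

theorem ut_eq (hρ : Continuous ρ) {t : ℝ} (ht : t < 0) (θ : ℝ) :
    ut ρ t θ = (deriv (FF ρ) ((t : ℂ) + (θ : ℂ) * I)).re := (hasDerivAt_uu_t hρ ht θ).deriv

theorem uth_eq (hρ : Continuous ρ) {t : ℝ} (ht : t < 0) (θ : ℝ) :
    uth ρ t θ = -(deriv (FF ρ) ((t : ℂ) + (θ : ℂ) * I)).im := (hasDerivAt_uu_th hρ ht θ).deriv

/-- the closed formula for the derivative of `FF` -/
theorem deriv_FF (hρ : Continuous ρ) {w : ℂ} (hw : w ∈ HP) :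
    deriv (FF ρ) w = ((2 * π)⁻¹ : ℝ) • ∫ α in (0:ℝ)..(2 * π), (ρ α : ℂ) * KK' w α :=
  (hasDerivAt_FF hρ hw).deriv

/-! ### joint continuity -/

theorem contOn_comp {G : ℂ → ℂ} (hG : ContinuousOn G HP) :
    ContinuousOn (fun p : ℝ × ℝ => G ((p.1 : ℂ) + (p.2 : ℂ) * I)) (Iio 0 ×ˢ univ) :=
  hG.comp (by fun_prop) fun p hp => pt_mem hp.1 p.2

theorem cont_uu (hρ : Continuous ρ) :
    ContinuousOn (fun p : ℝ × ℝ => uu ρ p.1 p.2) (Iio 0 ×ˢ univ) := by
  have h := Complex.continuous_re.comp_continuousOn (contOn_comp (cont_FF hρ))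
  refine h.congr fun p hp => ?_
  exact uu_eq hρ hp.1 p.2

theorem cont_ut (hρ : Continuous ρ) :
    ContinuousOn (fun p : ℝ × ℝ => ut ρ p.1 p.2) (Iio 0 ×ˢ univ) := by
  have h := Complex.continuous_re.comp_continuousOn (contOn_comp (cont_dFF hρ))
  refine h.congr fun p hp => ?_
  exact ut_eq hρ hp.1 p.2

theorem cont_uth (hρ : Continuous ρ) :
    ContinuousOn (fun p : ℝ × ℝ => uth ρ p.1 p.2) (Iio 0 ×ˢ univ) := by
  have h := (Complex.continuous_im.comp_continuousOn (contOn_comp (cont_dFF hρ))).neg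
  refine h.congr fun p hp => ?_
  exact uth_eq hρ hp.1 p.2

noncomputable def utt (ρ : ℝ → ℝ) (t θ : ℝ) : ℝ :=
  (deriv (deriv (FF ρ)) ((t : ℂ) + (θ : ℂ) * I)).re

theorem cont_utt (hρ : Continuous ρ) :
    ContinuousOn (fun p : ℝ × ℝ => utt ρ p.1 p.2) (Iio 0 ×ˢ univ) :=
  Complex.continuous_re.comp_continuousOn (contOn_comp (cont_ddFF hρ))

theorem hasDerivAt_ut_t (hρ : Continuous ρ) {t : ℝ} (ht : t < 0) (θ : ℝ) :
    HasDerivAt (fun t' => ut ρ t' θ) (utt ρ t θ) t := by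
  have h := hasDerivAt_re_t (dFF_hasDerivAt hρ (pt_mem ht θ))
  refine h.congr_of_eventuallyEq ?_
  filter_upwards [eventually_neg ht] with t' ht'
  exact ut_eq hρ ht' θ

/-- Laplace's equation: `∂_θ uth = - utt` -/
theorem hasDerivAt_uth_th (hρ : Continuous ρ) {t : ℝ} (ht : t < 0) (θ : ℝ) :
    HasDerivAt (fun θ' => uth ρ t θ') (-utt ρ t θ) θ := by
  have h := (hasDerivAt_im_th (dFF_hasDerivAt hρ (pt_mem ht θ))).fun_neg
  refine h.congr_of_eventuallyEq ?_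
  filter_upwards with θ'
  exact uth_eq hρ ht θ'

theorem hasDerivAt_uu_t' (hρ : Continuous ρ) {t : ℝ} (ht : t < 0) (θ : ℝ) :
    HasDerivAt (fun t' => uu ρ t' θ) (ut ρ t θ) t := by
  rw [ut_eq hρ ht]
  exact hasDerivAt_uu_t hρ ht θ

theorem hasDerivAt_uu_th' (hρ : Continuous ρ) {t : ℝ} (ht : t < 0) (θ : ℝ) :
    HasDerivAt (fun θ' => uu ρ t θ') (uth ρ t θ) θ := by
  rw [uth_eq hρ ht]
  exact hasDerivAt_uu_th hρ ht θ

theorem uth_per (hρ : Continuous ρ) {t : ℝ} (ht : t < 0) (θ : ℝ) :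
    uth ρ t (θ + 2 * π) = uth ρ t θ := by
  rw [uth_eq hρ ht, uth_eq hρ ht]
  have h1 : (t : ℂ) + ((θ + 2 * π : ℝ) : ℂ) * I = ((t : ℂ) + (θ : ℂ) * I) + 2 * π * I := by
    push_cast
    ring
  rw [h1, dFF_per]

theorem slice {G : ℝ → ℝ → ℝ} (hG : ContinuousOn (fun p : ℝ × ℝ => G p.1 p.2) (Iio 0 ×ˢ univ))
    {t : ℝ} (ht : t < 0) : Continuous fun θ => G t θ :=
  hG.comp_continuous (by fun_prop : Continuous fun θ : ℝ => (t, θ)) fun _ => ⟨ht, trivial⟩

/-! ### E2a -/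

theorem logC (h : Dens ρ) :
    ContinuousOn (fun p : ℝ × ℝ => Real.log (uu ρ p.1 p.2)) (Iio 0 ×ˢ univ) :=
  (cont_uu h.cont).log fun p hp => (uu_pos h hp.1 p.2).ne'

theorem cont_i0 (h : Dens ρ) : ContinuousOn
    (fun p : ℝ × ℝ => uu ρ p.1 p.2 * Real.log (uu ρ p.1 p.2)) (Iio 0 ×ˢ univ) :=
  (cont_uu h.cont).mul (logC h)

theorem cont_i1 (h : Dens ρ) : ContinuousOn
    (fun p : ℝ × ℝ => (1 + Real.log (uu ρ p.1 p.2)) * ut ρ p.1 p.2) (Iio 0 ×ˢ univ) :=
  (continuousOn_const.add (logC h)).mul (cont_ut h.cont)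

theorem cont_i2 (h : Dens ρ) : ContinuousOn
    (fun p : ℝ × ℝ => (ut ρ p.1 p.2 ^ 2 + uth ρ p.1 p.2 ^ 2) / uu ρ p.1 p.2) (Iio 0 ×ˢ univ) :=
  (((cont_ut h.cont).pow 2).add ((cont_uth h.cont).pow 2)).div (cont_uu h.cont)
    fun p hp => (uu_pos h hp.1 p.2).ne'

theorem cont_i1' (h : Dens ρ) : ContinuousOn
    (fun p : ℝ × ℝ => ut ρ p.1 p.2 / uu ρ p.1 p.2 * ut ρ p.1 p.2 +
      (1 + Real.log (uu ρ p.1 p.2)) * utt ρ p.1 p.2) (Iio 0 ×ˢ univ) :=
  (((cont_ut h.cont).div (cont_uu h.cont) fun p hp => (uu_pos h hp.1 p.2).ne').mul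
    (cont_ut h.cont)).add ((continuousOn_const.add (logC h)).mul (cont_utt h.cont))

/-- integration by parts in `θ` -/
theorem parts (h : Dens ρ) {t : ℝ} (ht : t < 0) :
    ∫ θ in (-π)..π, (uth ρ t θ / uu ρ t θ * uth ρ t θ +
      (1 + Real.log (uu ρ t θ)) * (-utt ρ t θ)) = 0 := by
  have hd : ∀ θ : ℝ, HasDerivAt (fun θ => (1 + Real.log (uu ρ t θ)) * uth ρ t θ)
      (uth ρ t θ / uu ρ t θ * uth ρ t θ + (1 + Real.log (uu ρ t θ)) * (-utt ρ t θ)) θ := by
    intro θ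
    have h1 := ((hasDerivAt_uu_th' h.cont ht θ).log (uu_pos h ht θ).ne').const_add 1
    exact h1.fun_mul (hasDerivAt_uth_th h.cont ht θ)
  have hc : Continuous fun θ => uth ρ t θ / uu ρ t θ * uth ρ t θ +
      (1 + Real.log (uu ρ t θ)) * (-utt ρ t θ) := by
    have c1 := slice (cont_uth h.cont) ht
    have c2 := slice (cont_uu h.cont) ht
    have c3 := slice (cont_utt h.cont) ht
    have c4 := slice (G := fun t θ => Real.log (uu ρ t θ)) (logC h) ht
    exact ((c1.div c2 fun θ => (uu_pos h ht θ).ne').mul c1).add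
      ((continuous_const.add c4).mul c3.neg)
  rw [intervalIntegral.integral_eq_sub_of_hasDerivAt (fun θ _ => hd θ)
    (hc.intervalIntegrable _ _)]
  have e1 : uu ρ t π = uu ρ t (-π) := by
    rw [← uu_per ρ t (-π)]
    congr 1
    ring
  have e2 : uth ρ t π = uth ρ t (-π) := by
    rw [← uth_per h.cont ht (-π)]
    congr 1
    ring
  rw [e1, e2, sub_self]

theorem E2a {ρ : ℝ → ℝ} (h : Dens ρ) {t : ℝ} (ht : t < 0) :
    HasDerivAt (AA ρ) (A1 ρ t) t ∧ HasDerivAt (A1 ρ) (A2 ρ t) t ∧ ContinuousAt (A2 ρ) t := by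
  refine ⟨?_, ?_, ?_⟩
  · have h1 := hasDerivAt_param (𝕜 := ℝ) (E := ℝ)
      (F := fun t θ => uu ρ t θ * Real.log (uu ρ t θ))
      (F' := fun t θ => (1 + Real.log (uu ρ t θ)) * ut ρ t θ) (a := -π) (b := π)
      isOpen_Iio (x₀ := t) ht (cont_i0 h) (cont_i1 h)
      (fun x hx θ => by
        have d1 := hasDerivAt_uu_t' h.cont hx θ
        have hp := (uu_pos h hx θ).ne'
        refine (d1.fun_mul (d1.log hp)).congr_deriv ?_
        field_simp
        ring)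
    exact h1.const_mul _
  · have h1 := hasDerivAt_param (𝕜 := ℝ) (E := ℝ)
      (F := fun t θ => (1 + Real.log (uu ρ t θ)) * ut ρ t θ)
      (F' := fun t θ => ut ρ t θ / uu ρ t θ * ut ρ t θ +
        (1 + Real.log (uu ρ t θ)) * utt ρ t θ) (a := -π) (b := π)
      isOpen_Iio (x₀ := t) ht (cont_i1 h) (cont_i1' h)
      (fun x hx θ => by
        have d1 := hasDerivAt_uu_t' h.cont hx θ
        have hp := (uu_pos h hx θ).ne'
        exact ((d1.log hp).const_add 1).fun_mul (hasDerivAt_ut_t h.cont hx θ))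
    have h2 : ∫ θ in (-π)..π, (ut ρ t θ / uu ρ t θ * ut ρ t θ +
        (1 + Real.log (uu ρ t θ)) * utt ρ t θ) =
        ∫ θ in (-π)..π, (ut ρ t θ ^ 2 + uth ρ t θ ^ 2) / uu ρ t θ := by
      have h3 := parts h ht
      have i1 : IntervalIntegrable (fun θ => ut ρ t θ / uu ρ t θ * ut ρ t θ +
        (1 + Real.log (uu ρ t θ)) * utt ρ t θ) volume (-π) π :=
        (slice (G := fun t θ => ut ρ t θ / uu ρ t θ * ut ρ t θ +
        (1 + Real.log (uu ρ t θ)) * utt ρ t θ) (cont_i1' h) ht).intervalIntegrable _ _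
      have i2 : IntervalIntegrable (fun θ => uth ρ t θ / uu ρ t θ * uth ρ t θ +
        (1 + Real.log (uu ρ t θ)) * (-utt ρ t θ)) volume (-π) π := by
        have c1 := slice (cont_uth h.cont) ht
        have c2 := slice (cont_uu h.cont) ht
        have c3 := slice (cont_utt h.cont) ht
        have c4 := slice (G := fun t θ => Real.log (uu ρ t θ)) (logC h) ht
        exact (((c1.div c2 fun θ => (uu_pos h ht θ).ne').mul c1).add
          ((continuous_const.add c4).mul c3.neg)).intervalIntegrable _ _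
      have h4 := intervalIntegral.integral_add i1 i2
      rw [h3, add_zero] at h4
      rw [← h4]
      refine intervalIntegral.integral_congr fun θ _ => ?_
      have hp := (uu_pos h ht θ).ne'
      field_simp
      ring
    rw [h2] at h1
    exact h1.const_mul _
  · exact (continuousAt_param (X := ℝ) (E := ℝ)
      (F := fun t θ => (ut ρ t θ ^ 2 + uth ρ t θ ^ 2) / uu ρ t θ) (a := -π) (b := π)
      isOpen_Iio (x₀ := t) ht (cont_i2 h)).const_mul _

end Pool.Agent.Helper48.EK
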